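import Pool.Agent.H11.LGR.Targets

/-!
# Row DIE: Dietzmann's lemma
-/

set_option autoImplicit false

open MvPolynomial Pool.Agent.H87.CLG Pool.Agent.H11.LGR

namespace Pool.Agent.H94.LGR

universe u

section

variable {Γ : Type u} [Group Γ] {X : Set Γ}

/-- every element is a product of a list of elements of `X` -/
theorem exists_list (hX : GX X) (g : Γ) : ∃ l : List Γ, (∀ x ∈ l, x ∈ X) ∧ l.prod = g := by
  have hg : g ∈ Subgroup.closure X := by
    rw [hX.gen]
    exact Subgroup.mem_top g
  induction hg using Subgroup.closure_induction with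
  | mem x hx => exact ⟨[x], by simpa using hx, by simp⟩
  | one => exact ⟨[], by simp, by simp⟩
  | mul x y _ _ h1 h2 =>
    obtain ⟨l, hl, h3⟩ := h1
    obtain ⟨l', hl', h4⟩ := h2
    refine ⟨l ++ l', fun z hz => ?_, by rw [List.prod_append, h3, h4]⟩
    rcases List.mem_append.1 hz with h | h
    · exact hl z h
    · exact hl' z h
  | inv x _ h1 =>
    obtain ⟨l, hl, h3⟩ := h1
    refine ⟨(l.map (·⁻¹)).reverse, fun z hz => ?_, by rw [← List.prod_inv_reverse, h3]⟩
    obtain ⟨y, hy, rfl⟩ := List.mem_map.1 (List.mem_reverse.1 hz)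
    exact hX.inv y (hl y hy)

theorem ofFn_get_cast {α : Type*} (l : List α) (N : ℕ) (h : l.length = N) :
    (List.ofFn fun i : Fin N => l.get (Fin.cast h.symm i)) = l := by
  subst h
  exact List.ofFn_get l

/-- collecting the powers of `x` -/
theorem collect (hX : GX X) [DecidableEq Γ] (x : Γ) (l : List Γ) (hl : ∀ y ∈ l, y ∈ X) :
    ∃ l' : List Γ, (∀ y ∈ l', y ∈ X) ∧ l'.length + l.count x = l.length ∧
      l.prod = x ^ l.count x * l'.prod := by
  induction l with
  | nil => exact ⟨[], by simp, by simp, by simp⟩
  | cons y l ih =>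
    obtain ⟨l', h1, h2, h3⟩ := ih fun z hz => hl z (List.mem_cons_of_mem y hz)
    by_cases hy : y = x
    · subst hy
      refine ⟨l', h1, ?_, ?_⟩
      · rw [List.count_cons_self, List.length_cons, ← h2]
        omega
      · rw [List.prod_cons, List.count_cons_self, h3, pow_succ', mul_assoc]
    · refine ⟨((x ^ l.count x)⁻¹ * y * (x ^ l.count x)) :: l', ?_, ?_, ?_⟩
      · intro z hz
        rcases List.mem_cons.1 hz with h | h
        · rw [h]
          have h4 := hX.conj (x ^ l.count x)⁻¹ y (hl y List.mem_cons_self)
          rwa [inv_inv] at h4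
        · exact h1 z h
      · rw [List.length_cons, List.length_cons, List.count_cons_of_ne hy, ← h2]
        omega
      · rw [List.prod_cons, List.prod_cons, List.count_cons_of_ne hy, h3]
        group

theorem short_list (hX : GX X) (hfin : X.Finite) (b m : ℕ) (hm : 0 < m) (hb : X.ncard ≤ b)
    (hpow : ∀ x ∈ X, x ^ m = 1) (t : ℕ) : ∀ l : List Γ, l.length = t → (∀ x ∈ l, x ∈ X) →
    ∃ l' : List Γ, (∀ x ∈ l', x ∈ X) ∧ l'.length = b * m ∧ l'.prod = l.prod := by
  classical
  induction t using Nat.strong_induction_on with
  | _ t ih =>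
    intro l ht hl
    by_cases hlt : l.length ≤ b * m
    · refine ⟨List.replicate (b * m - l.length) 1 ++ l, ?_, ?_, ?_⟩
      · intro x hx
        rcases List.mem_append.1 hx with h | h
        · rw [(List.mem_replicate.1 h).2]
          exact hX.one
        · exact hl x h
      · rw [List.length_append, List.length_replicate]
        omega
      · rw [List.prod_append, List.prod_replicate, one_pow, one_mul]
    · have hx : ∃ x ∈ hfin.toFinset, m ≤ l.count x := by
        by_contra hcon
        push Not at hcon
        have h1 : ∑ a ∈ hfin.toFinset, (l : Multiset Γ).count a = Multiset.card (l : Multiset Γ) :=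
          Multiset.sum_count_eq_card fun a ha => by
            rw [Set.Finite.mem_toFinset]
            exact hl a (Multiset.mem_coe.1 ha)
        rw [Multiset.coe_card] at h1
        have h2 : ∑ a ∈ hfin.toFinset, (l : Multiset Γ).count a ≤ ∑ _a ∈ hfin.toFinset, m :=
          Finset.sum_le_sum fun a ha => by
            rw [Multiset.coe_count]
            exact (hcon a ha).le
        rw [Finset.sum_const, smul_eq_mul, ← Set.ncard_eq_toFinset_card X hfin] at h2
        have h3 := Nat.mul_le_mul_right m hb
        omega
      obtain ⟨x, hxX, hxm⟩ := hx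
      rw [Set.Finite.mem_toFinset] at hxX
      obtain ⟨l', h1, h2, h3⟩ := collect hX x l hl
      have h4 : l.prod = (List.replicate (l.count x - m) x ++ l').prod := by
        rw [List.prod_append, List.prod_replicate, h3]
        congr 1
        calc x ^ l.count x = x ^ (l.count x - m + m) := by
              rw [Nat.sub_add_cancel hxm]
          _ = x ^ (l.count x - m) := by rw [pow_add, hpow x hxX, mul_one]
      obtain ⟨l'', h5, h6, h7⟩ := ih (List.replicate (l.count x - m) x ++ l').length
        (by rw [List.length_append, List.length_replicate]; omega)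
        (List.replicate (l.count x - m) x ++ l') rfl
        (by
          intro y hy
          rcases List.mem_append.1 hy with h | h
          · rw [(List.mem_replicate.1 h).2]
            exact hxX
          · exact h1 y h)
      exact ⟨l'', h5, h6, h7.trans h4.symm⟩

end

theorem pf_DIE : T_DIE := by
  intro b m hm
  refine ⟨b ^ (b * m) + 1, Nat.succ_pos _, ?_⟩
  intro Γ _ X hX hfin hb hpow
  have : Finite X := hfin
  let φ : (Fin (b * m) → X) → Γ := fun v => (List.ofFn fun i => (v i : Γ)).prod
  have hφ : Function.Surjective φ := by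
    intro g
    obtain ⟨l, hl, hg⟩ := exists_list hX g
    obtain ⟨l', h1, h2, h3⟩ := short_list hX hfin b m hm hb hpow l.length l rfl hl
    refine ⟨fun i => ⟨l'.get (Fin.cast h2.symm i), h1 _ (List.get_mem _ _)⟩, ?_⟩
    change (List.ofFn fun i => l'.get (Fin.cast h2.symm i)).prod = g
    rw [← hg, ← h3]
    exact congrArg List.prod (ofFn_get_cast l' (b * m) h2)
  refine ⟨Finite.of_surjective φ hφ, ?_⟩
  refine (Nat.card_le_card_of_surjective φ hφ).trans ?_
  rw [Nat.card_fun, Nat.card_fin]
  have h1 : Nat.card X ≤ b := hb
  exact (Nat.pow_le_pow_left h1 _).trans (Nat.le_succ _)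

end Pool.Agent.H94.LGR
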