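import Pool.Agent.H11.LGR.Targets

/-!
# Row KER: specialization
-/

set_option autoImplicit false

open MvPolynomial Pool.Agent.H87.CLG Pool.Agent.H11.LGR

namespace Pool.Agent.H94.LGR

universe u v w

section

variable {n : ℕ} {R : Type v} {M : Type w} [CommRing R] [AddCommGroup M] [Module R M]

/-- the specialization of the free module -/
noncomputable def Psi (θ : PR (LL n) →+* R) (g : Fin n → M) (f : Fin n → PR (LL n)) : M :=
  ∑ c, θ (f c) • g c

theorem Psi_add (θ : PR (LL n) →+* R) (g : Fin n → M) (f f' : Fin n → PR (LL n)) :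
    Psi θ g (f + f') = Psi θ g f + Psi θ g f' := by
  unfold Psi
  rw [← Finset.sum_add_distrib]
  refine Finset.sum_congr rfl fun c _ => ?_
  rw [Pi.add_apply, map_add, add_smul]

theorem Psi_sub (θ : PR (LL n) →+* R) (g : Fin n → M) (f f' : Fin n → PR (LL n)) :
    Psi θ g (f - f') = Psi θ g f - Psi θ g f' := by
  unfold Psi
  rw [← Finset.sum_sub_distrib]
  refine Finset.sum_congr rfl fun c _ => ?_
  rw [Pi.sub_apply, map_sub, sub_smul]

theorem Psi_smul (θ : PR (LL n) →+* R) (g : Fin n → M) (r : PR (LL n))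
    (f : Fin n → PR (LL n)) : Psi θ g (r • f) = θ r • Psi θ g f := by
  unfold Psi
  rw [Finset.smul_sum]
  refine Finset.sum_congr rfl fun c _ => ?_
  rw [Pi.smul_apply, smul_eq_mul, map_mul, mul_smul]

theorem Psi_single (θ : PR (LL n) →+* R) (g : Fin n → M) (c : Fin n) :
    Psi θ g (Pi.single c 1) = g c := by
  unfold Psi
  rw [Finset.sum_eq_single c]
  · rw [Pi.single_eq_same, map_one, one_smul]
  · intro c' _ hc
    rw [Pi.single_eq_of_ne hc, map_zero, zero_smul]
  · intro h
    exact absurd (Finset.mem_univ c) h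

/-- the kernel of the specialization -/
noncomputable def KK (θ : PR (LL n) →+* R) (g : Fin n → M) :
    Submodule (PR (LL n)) (Fin n → PR (LL n)) where
  carrier := {f | Psi θ g f = 0}
  add_mem' := fun {a b} ha hb => by
    change Psi θ g (a + b) = 0
    rw [Psi_add, show Psi θ g a = 0 from ha, show Psi θ g b = 0 from hb, add_zero]
  zero_mem' := by
    change Psi θ g 0 = 0
    unfold Psi
    refine Finset.sum_eq_zero fun c _ => ?_
    rw [Pi.zero_apply, map_zero, zero_smul]
  smul_mem' := fun r f hf => by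
    change Psi θ g (r • f) = 0
    rw [Psi_smul, show Psi θ g f = 0 from hf, smul_zero]

theorem mem_KK {θ : PR (LL n) →+* R} {g : Fin n → M} {f : Fin n → PR (LL n)} :
    f ∈ KK θ g ↔ Psi θ g f = 0 := Iff.rfl

end

theorem pf_KER : T_KER.{u, v, w} := by
  intro n ν Γ R M _ _ _ _ g ρ X x hspan hX hLX hx
  let y : ℕ → Bool → Γ := fun i b => cond b (x i) (x i)⁻¹
  have hex : ∀ (i : ℕ) (b : Bool) (c : Fin n), ∃ a : Fin n → R,
      ∑ r, a r • g r = ρ (y i b) (g c) := by
    intro i b c
    have h1 : ρ (y i b) (g c) ∈ Submodule.span R (Set.range g) := by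
      rw [hspan]
      exact Submodule.mem_top
    exact (Submodule.mem_span_range_iff_exists_fun R).1 h1
  choose a ha using hex
  let θ : PR (LL n) →+* R := eval₂Hom (Int.castRingHom R)
    (fun p : ℕ × LL n => a p.1 p.2.1 p.2.2.2 p.2.2.1)
  have hθ : ∀ (i : ℕ) (b : Bool) (r c : Fin n), θ (mt i b r c) = a i b c r := by
    intro i b r c
    change eval₂Hom (Int.castRingHom R) (fun p : ℕ × LL n => a p.1 p.2.1 p.2.2.2 p.2.2.1)
      (MvPolynomial.X (i, (b, r, c))) = a i b c r
    rw [coe_eval₂Hom, eval₂_X]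
  have hmul : ∀ (i : ℕ) (b : Bool) (f : Fin n → PR (LL n)),
      Psi θ g ((mt i b).mulVec f) = ρ (y i b) (Psi θ g f) := by
    intro i b f
    unfold Psi
    rw [map_sum]
    have h1 : ∀ r : Fin n, θ ((mt i b).mulVec f r) • g r =
        ∑ c, θ (f c) • (a i b c r • g r) := by
      intro r
      have h2 : (mt i b).mulVec f r = ∑ c, mt i b r c * f c := rfl
      rw [h2, map_sum, Finset.sum_smul]
      refine Finset.sum_congr rfl fun c _ => ?_
      rw [map_mul, hθ, smul_smul, mul_comm]
    rw [Finset.sum_congr rfl fun r _ => h1 r, Finset.sum_comm]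
    refine Finset.sum_congr rfl fun c _ => ?_
    rw [map_smul, ← ha i b c, Finset.smul_sum]
  have hev : ∀ (l : List (ℕ × Bool)) (f : Fin n → PR (LL n)),
      Psi θ g (ev l f) = ρ (FreeGroup.lift x (FreeGroup.mk l)) (Psi θ g f) := by
    intro l f
    induction l with
    | nil =>
      have h1 : FreeGroup.lift x (FreeGroup.mk []) = 1 := by
        rw [FreeGroup.lift_mk]
        rfl
      rw [h1, map_one]
      rfl
    | cons p l ih =>
      have h1 : FreeGroup.lift x (FreeGroup.mk (p :: l)) =
          y p.1 p.2 * FreeGroup.lift x (FreeGroup.mk l) := by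
        rw [FreeGroup.lift_mk, FreeGroup.lift_mk, List.map_cons, List.prod_cons]
      have h2 : ev (p :: l) f = (mt p.1 p.2).mulVec (ev l f) := rfl
      rw [h1, h2, hmul, ih, map_mul]
      rfl
  refine ⟨KK θ g, ⟨?_, ?_, ?_⟩, ?_⟩
  · intro i b f hf
    rw [mem_KK] at hf ⊢
    rw [hmul, hf, map_zero]
  · intro i b f
    rw [mem_KK, Psi_sub, hmul, hmul]
    have h1 : y i b * y i (!b) = 1 := by
      cases b
      · exact inv_mul_cancel (x i)
      · exact mul_inv_cancel (x i)
    have h2 : ρ (y i b) (ρ (y i (!b)) (Psi θ g f)) = ρ (y i b * y i (!b)) (Psi θ g f) := by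
      rw [map_mul]
      rfl
    rw [h2, h1, map_one]
    exact sub_self _
  · intro l hl w hw f
    rw [mem_KK, Psi_sub, hev, hw, map_pow, map_pow]
    have h1 : FreeGroup.lift x l.prod = (l.map (FreeGroup.lift x)).prod := by
      rw [map_list_prod]
    have h2 : ∀ z ∈ l.map (FreeGroup.lift x), z ∈ X := by
      intro z hz
      obtain ⟨q, hq, rfl⟩ := List.mem_map.1 hz
      rcases hl q hq with h3 | ⟨h, i, h3 | h3⟩
      · rw [h3, map_one]
        exact hX.one
      · rw [h3, map_mul, map_mul, map_inv, FreeGroup.lift_apply_of]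
        exact hX.conj _ _ (hx i)
      · rw [h3, map_mul, map_mul, map_inv, map_inv, FreeGroup.lift_apply_of]
        exact hX.conj _ _ (hX.inv _ (hx i))
    have h3 := hLX (l.map (FreeGroup.lift x)) h2
    rw [List.length_map, ← h1] at h3
    rw [h3]
    exact sub_self _
  · intro l hl
    refine LinearMap.ext_on_range hspan fun c => ?_
    have h1 := hl (Pi.single c 1)
    rw [mem_KK, Psi_sub, hev, Psi_single, sub_eq_zero] at h1
    exact h1

end Pool.Agent.H94.LGR
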