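import Pool.Agent.H94.LGR.DIE

/-!
# Row SCH: generators of a subgroup of finite index
-/

set_option autoImplicit false

open MvPolynomial Pool.Agent.H87.CLG Pool.Agent.H11.LGR

namespace Pool.Agent.H94.LGR

section

variable {Γ : Type} [Group Γ] {X : Set Γ}

/-- padding by `1` -/
theorem pad_list (hX : GX X) (l : List Γ) (hl : ∀ x ∈ l, x ∈ X) (N : ℕ) (hN : l.length ≤ N) :
    ∃ l' : List Γ, (∀ x ∈ l', x ∈ X) ∧ l'.length = N ∧ l'.prod = l.prod := by
  refine ⟨List.replicate (N - l.length) 1 ++ l, ?_, ?_, ?_⟩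
  · intro x hx
    rcases List.mem_append.1 hx with h | h
    · rw [(List.mem_replicate.1 h).2]
      exact hX.one
    · exact hl x h
  · rw [List.length_append, List.length_replicate]
    omega
  · rw [List.prod_append, List.prod_replicate, one_pow, one_mul]

theorem inv_list (hX : GX X) (l : List Γ) (hl : ∀ x ∈ l, x ∈ X) :
    ∃ l' : List Γ, (∀ x ∈ l', x ∈ X) ∧ l'.length = l.length ∧ l'.prod = l.prod⁻¹ := by
  refine ⟨(l.map (·⁻¹)).reverse, fun z hz => ?_, by simp, by rw [← List.prod_inv_reverse]⟩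
  obtain ⟨y, hy, rfl⟩ := List.mem_map.1 (List.mem_reverse.1 hz)
  exact hX.inv y (hl y hy)

/-- the cosets of the products of `k` elements -/
def Dk (X : Set Γ) (U : Subgroup Γ) (k : ℕ) : Set (Γ ⧸ U) :=
  {q | ∃ l : List Γ, (∀ x ∈ l, x ∈ X) ∧ l.length = k ∧ (QuotientGroup.mk l.prod : Γ ⧸ U) = q}

theorem Dk_mono (hX : GX X) (U : Subgroup Γ) (k : ℕ) : Dk X U k ⊆ Dk X U (k + 1) := by
  rintro q ⟨l, h1, h2, h3⟩
  obtain ⟨l', h4, h5, h6⟩ := pad_list hX l h1 (k + 1) (by omega)
  exact ⟨l', h4, h5, by rw [h6, h3]⟩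

theorem Dk_univ (hX : GX X) (U : Subgroup Γ) (k : ℕ) (h : Dk X U (k + 1) ⊆ Dk X U k) :
    Dk X U k = Set.univ := by
  have h0 : ∀ l : List Γ, (∀ x ∈ l, x ∈ X) → (QuotientGroup.mk l.prod : Γ ⧸ U) ∈ Dk X U k := by
    intro l
    induction l with
    | nil =>
      intro _
      obtain ⟨l', h4, h5, h6⟩ := pad_list hX [] (by simp) k (by simp)
      exact ⟨l', h4, h5, by rw [h6]⟩
    | cons x l ih =>
      intro hl
      obtain ⟨l', h4, h5, h6⟩ := ih fun z hz => hl z (List.mem_cons_of_mem x hz)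
      refine h ⟨x :: l', ?_, by rw [List.length_cons, h5], ?_⟩
      · intro z hz
        rcases List.mem_cons.1 hz with h7 | h7
        · rw [h7]
          exact hl x List.mem_cons_self
        · exact h4 z h7
      · rw [QuotientGroup.eq] at h6 ⊢
        rw [List.prod_cons, List.prod_cons]
        have h8 : (x * l'.prod)⁻¹ * (x * l.prod) = l'.prod⁻¹ * l.prod := by group
        rw [h8]
        exact h6
  rw [Set.eq_univ_iff_forall]
  intro q
  obtain ⟨g, rfl⟩ := QuotientGroup.mk_surjective q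
  obtain ⟨l, hl, rfl⟩ := exists_list hX g
  exact h0 l hl

theorem Dk_card (hX : GX X) (U : Subgroup Γ) (hU : U.index ≠ 0) (k : ℕ) :
    Dk X U k = Set.univ ∨ k + 1 ≤ (Dk X U k).ncard := by
  have hfin : Finite (Γ ⧸ U) := by
    have : U.FiniteIndex := ⟨hU⟩
    infer_instance
  induction k with
  | zero =>
    right
    have h1 : (Dk X U 0).Nonempty := ⟨_, [], by simp, rfl, rfl⟩
    have := (Set.ncard_pos (Set.toFinite _)).2 h1
    omega
  | succ k ih =>
    rcases ih with h | h
    · left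
      exact Set.eq_univ_of_univ_subset (h ▸ Dk_mono hX U k)
    · by_cases h1 : Dk X U (k + 1) ⊆ Dk X U k
      · left
        have h2 := Dk_univ hX U k h1
        exact Set.eq_univ_of_univ_subset (h2 ▸ Dk_mono hX U k)
      · right
        have h2 : Dk X U k ⊂ Dk X U (k + 1) := ⟨Dk_mono hX U k, h1⟩
        have := Set.ncard_lt_ncard h2 (Set.toFinite _)
        omega

/-- every element is `u t` with `u` in `U` and `t` a product of `B` elements of `X` -/
theorem exists_decomp (hX : GX X) (U : Subgroup Γ) (B : ℕ) (hU : U.index ≠ 0)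
    (hB : U.index ≤ B) (g : Γ) : ∃ (u : Γ) (l : List Γ), u ∈ U ∧ (∀ x ∈ l, x ∈ X) ∧
      l.length = B ∧ g = u * l.prod := by
  have hfin : Finite (Γ ⧸ U) := by
    have : U.FiniteIndex := ⟨hU⟩
    infer_instance
  have huniv : Dk X U B = Set.univ := by
    rcases Dk_card hX U hU B with h | h
    · exact h
    · exfalso
      have h1 : (Dk X U B).ncard ≤ Nat.card (Γ ⧸ U) := by
        rw [← Set.ncard_univ]
        exact Set.ncard_le_ncard (Set.subset_univ _) (Set.toFinite _)
      have h2 : Nat.card (Γ ⧸ U) = U.index := rfl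
      omega
  have h1 : (QuotientGroup.mk g⁻¹ : Γ ⧸ U) ∈ Dk X U B := by
    rw [huniv]
    exact Set.mem_univ _
  obtain ⟨l, h2, h3, h4⟩ := h1
  rw [QuotientGroup.eq] at h4
  obtain ⟨l', h5, h6, h7⟩ := inv_list hX l h2
  refine ⟨g * l.prod, l', ?_, h5, h6.trans h3, ?_⟩
  · have h8 := U.inv_mem h4
    have h9 : (l.prod⁻¹ * g⁻¹)⁻¹ = g * l.prod := by group
    rwa [h9] at h8
  · rw [h7]
    group

end

theorem pf_SCH : T_SCH := by
  intro Γ _ X U B hX hU hB
  set V : Subgroup Γ := Subgroup.closure {u | u ∈ U ∧ ∃ l : List Γ, (∀ x ∈ l, x ∈ X) ∧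
    l.length = 2 * B + 1 ∧ l.prod = u} with hV
  have hVU : V ≤ U := by
    rw [hV, Subgroup.closure_le]
    rintro u ⟨hu, -⟩
    exact hu
  have key : ∀ l : List Γ, (∀ x ∈ l, x ∈ X) → ∃ (v : Γ) (t : List Γ), v ∈ V ∧
      (∀ x ∈ t, x ∈ X) ∧ t.length = B ∧ l.prod = v * t.prod := by
    intro l
    induction l using List.reverseRecOn with
    | nil =>
      intro _
      obtain ⟨t, h4, h5, h6⟩ := pad_list hX [] (by simp) B (by simp)
      exact ⟨1, t, V.one_mem, h4, h5, by rw [h6, one_mul]⟩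
    | append_singleton l x ih =>
      intro hl
      obtain ⟨v, t, hv, h1, h2, h3⟩ := ih fun z hz => hl z (List.mem_append.2 (Or.inl hz))
      have hx : x ∈ X := hl x (List.mem_append.2 (Or.inr (List.mem_singleton.2 rfl)))
      obtain ⟨u, t', hu, h4, h5, h6⟩ := exists_decomp hX U B hU hB (t.prod * x)
      obtain ⟨t'', h7, h8, h9⟩ := inv_list hX t' h4
      refine ⟨v * u, t', V.mul_mem hv (Subgroup.subset_closure ⟨hu, t ++ (x :: t''), ?_, ?_, ?_⟩),
        h4, h5, ?_⟩
      · intro z hz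
        rcases List.mem_append.1 hz with h | h
        · exact h1 z h
        · rcases List.mem_cons.1 h with h | h
          · rw [h]
            exact hx
          · exact h7 z h
      · rw [List.length_append, List.length_cons, h2, h8, h5]
        omega
      · rw [List.prod_append, List.prod_cons, h9, ← mul_assoc, h6]
        group
      · rw [List.prod_append, List.prod_singleton, h3, mul_assoc, h6, mul_assoc]
  intro u hu
  obtain ⟨l, hl, rfl⟩ := exists_list hX u
  obtain ⟨v, t, hv, h1, h2, h3⟩ := key l hl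
  rw [h3]
  refine V.mul_mem hv (Subgroup.subset_closure ⟨?_, ?_⟩)
  · have h4 : t.prod = v⁻¹ * l.prod := by
      rw [h3]
      group
    rw [h4]
    exact U.mul_mem (U.inv_mem (hVU hv)) hu
  · obtain ⟨t', h4, h5, h6⟩ := pad_list hX t h1 (2 * B + 1) (by omega)
    exact ⟨t', h4, h5, h6⟩

end Pool.Agent.H94.LGR
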